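import Mathlib
import Pool.Agent.P.MP_3a943a_co.Main

/-!
# Closed relations give homomorphisms; the linear and the quadratic deformation of a simplex
-/

set_option autoImplicit false

namespace Pool.Agent.P.MP_3a943a_co.Pl

open Finset

variable {k n : ℕ}

/-- a closed relation that separates antipodal points gives a homomorphism -/
lemma hom_of_rel {Y : Type} [TopologicalSpace Y] [CompactSpace Y] (c : Y → Sph n)
    (hc : Continuous c) (R : Set (Sph k × Y)) (hR : IsClosed R) (tot : ∀ x, ∃ y, (x, y) ∈ R)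
    (s : ℝ) (H : ∀ (x x' : Sph k) (y y' : Y), x'.1 = -x.1 → (x, y) ∈ R → (x', y') ∈ R →
      inner ℝ (c y).1 (c y').1 ≤ s) {t : ℝ} (ht : s < t) :
    ∃ r, 0 < r ∧ r < Real.pi ∧ Hom k n r (Real.arccos t) := by
  choose F hF using tot
  let K : Set ((Sph k × Y) × (Sph k × Y)) :=
    (R ×ˢ R) ∩ {p | t ≤ inner ℝ (c p.1.2).1 (c p.2.2).1}
  have hK : IsCompact K :=
    IsClosed.isCompact ((hR.prod hR).inter (isClosed_le (by fun_prop) (by fun_prop)))
  obtain ⟨t0, ht0, htK⟩ := hK.exists_forall_le' (f := fun p => inner ℝ p.1.1.1 p.2.1.1) (a := -1)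
    (by fun_prop) (by
      rintro ⟨⟨x, y⟩, x', y'⟩ ⟨⟨h1, h2⟩, h3⟩
      refine lt_of_le_of_ne (sph_inner_ge x x') fun h => ?_
      have hx : x'.1 = -x.1 := by
        have h4 := norm_add_sq_real x.1 x'.1
        have a1 : ‖x.1‖ = 1 := by simp
        have a2 : ‖x'.1‖ = 1 := by simp
        rw [a1, a2, ← h] at h4
        have h5 : ‖x.1 + x'.1‖ ^ 2 = 0 := by linarith
        rw [pow_eq_zero_iff two_ne_zero, norm_eq_zero] at h5
        exact eq_neg_of_add_eq_zero_right h5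
      have := H x x' y y' hx h1 h2
      have h3' : t ≤ inner ℝ (c y).1 (c y').1 := h3
      linarith)
  set t1 := min ((t0 - 1) / 2) 0 with ht1
  have a1 : -1 < t1 := lt_min (by linarith) (by norm_num)
  have a2 : t1 < t0 := (min_le_left _ _).trans_lt (by linarith)
  have a3 : t1 ≤ 0 := min_le_right _ _
  refine ⟨Real.arccos t1, Real.arccos_pos.mpr (by linarith), ?_, fun x => c (F x),
    fun x x' hr => Real.antitone_arccos ?_⟩
  · exact lt_of_le_of_ne (Real.arccos_le_pi _) fun h => by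
      rw [Real.arccos_eq_pi] at h; linarith
  · by_contra hcon
    have hmem : ((x, F x), (x', F x')) ∈ K := ⟨⟨hF x, hF x'⟩, (not_le.mp hcon).le⟩
    have b1 := htK _ hmem
    have b2 : Real.arccos (inner ℝ x.1 x'.1) < Real.arccos t1 :=
      Real.strictAntiOn_arccos ⟨a1.le, by linarith⟩ ⟨sph_inner_ge _ _, sph_inner_le _ _⟩
        (a2.trans_le b1)
    exact absurd hr (not_le.mpr b2)

/-- the ambient space of the target sphere -/
abbrev Ev (n : ℕ) : Type := EuclideanSpace ℝ (Fin (n + 1))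

variable {E : Type} [NormedAddCommGroup E] [InnerProductSpace ℝ E]

/-- a regular simplex centred at the origin, scaled to be a tight frame -/
structure IsFrame {I : Type} [Fintype I] [DecidableEq I] (τ : ℝ) (a : I → E) : Prop where
  gram : ∀ i j, inner ℝ (a i) (a j) = (if i = j then 1 else 0) - τ ^ 2
  zero : ∀ u, ∑ i, inner ℝ (a i) u = 0
  tight : ∀ u, ∑ i, inner ℝ (a i) u ^ 2 = ‖u‖ ^ 2

lemma IsFrame.map {I : Type} [Fintype I] [DecidableEq I] {τ : ℝ} {a : I → E} (ha : IsFrame τ a)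
    {E' : Type} [NormedAddCommGroup E'] [InnerProductSpace ℝ E'] (G : E → E')
    (h1 : ∀ v w, inner ℝ (G v) (G w) = inner ℝ v w) (h2 : Function.Surjective G) :
    IsFrame τ fun i => G (a i) := by
  refine ⟨fun i j => by rw [h1, ha.gram], fun u => ?_, fun u => ?_⟩
  · obtain ⟨u, rfl⟩ := h2 u
    simp only [h1, ha.zero]
  · obtain ⟨u, rfl⟩ := h2 u
    simp only [h1, ha.tight]
    rw [← real_inner_self_eq_norm_sq, ← real_inner_self_eq_norm_sq, h1]

noncomputable def rho (b : E) : ℝ := Real.sqrt (1 - ‖b‖ ^ 2)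
noncomputable def mu (b : E) : ℝ := max 1 ‖b‖
noncomputable def eta (b : E) : ℝ := 1 / (mu b ^ 2 + rho b)
/-- the vector part of the rotated frame -/
noncomputable def wv (τ : ℝ) (b a : E) : E := a - (eta b * inner ℝ a b) • b + τ • b
/-- the scalar part of the rotated frame -/
noncomputable def tv (τ : ℝ) (b a : E) : ℝ := τ * rho b - inner ℝ a b / mu b

lemma mu_ge (b : E) : 1 ≤ mu b := le_max_left _ _
lemma rho_ge (b : E) : 0 ≤ rho b := Real.sqrt_nonneg _

lemma par_cases (b : E) : (mu b = 1 ∧ rho b ^ 2 = 1 - ‖b‖ ^ 2) ∨ (mu b = ‖b‖ ∧ rho b = 0) := by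
  rcases le_total ‖b‖ 1 with h | h
  · exact Or.inl ⟨max_eq_left h, Real.sq_sqrt (by nlinarith [norm_nonneg b])⟩
  · exact Or.inr ⟨max_eq_right h, Real.sqrt_eq_zero'.2 (by nlinarith)⟩

lemma eta_one (b : E) : 1 - eta b * ‖b‖ ^ 2 = rho b := by
  have h1 := mu_ge b
  have h2 := rho_ge b
  have h3 : mu b ^ 2 + rho b ≠ 0 := by positivity
  unfold eta
  rcases par_cases b with ⟨h, h'⟩ | ⟨h, h'⟩
  · rw [h] at h3 ⊢
    field_simp
    nlinarith
  · rw [h, h'] at h3 ⊢
    rw [add_zero] at h3 ⊢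
    rw [one_div, inv_mul_cancel₀ h3, sub_self]

lemma eta_two (b : E) : eta b * (1 + rho b) = 1 / mu b ^ 2 := by
  have h1 := mu_ge b
  have h2 := rho_ge b
  unfold eta
  rcases par_cases b with ⟨h, -⟩ | ⟨-, h'⟩
  · rw [h]
    field_simp
  · rw [h']
    simp

lemma rho_mu (b : E) : rho b / mu b = rho b := by
  rcases par_cases b with ⟨h, -⟩ | ⟨-, h'⟩
  · rw [h, div_one]
  · rw [h', zero_div]

lemma rho_sq (b : E) : rho b ^ 2 + ‖b‖ ^ 2 = mu b ^ 2 := by
  rcases par_cases b with ⟨h, h'⟩ | ⟨h, h'⟩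
  · rw [h, h']; ring
  · rw [h, h']; ring

lemma rho_sq' (b : E) : rho b ^ 2 + ‖b‖ ^ 2 / mu b ^ 2 = 1 := by
  have h1 := mu_ge b
  rcases par_cases b with ⟨h, h'⟩ | ⟨h, h'⟩
  · rw [h, h']; ring
  · rw [h'] 
    rw [h] at h1 ⊢
    have : ‖b‖ ^ 2 ≠ 0 := by positivity
    rw [div_self this]; ring

lemma inner_wv (τ : ℝ) (b a a' : E) : inner ℝ (wv τ b a) (wv τ b a') =
    inner ℝ a a' - inner ℝ a b * inner ℝ a' b / mu b ^ 2 +
      τ * rho b * (inner ℝ a b + inner ℝ a' b) + τ ^ 2 * ‖b‖ ^ 2 := by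
  have h1 := eta_one b
  have h2 := eta_two b
  simp only [wv, inner_add_left, inner_add_right, inner_sub_left, inner_sub_right,
    real_inner_smul_left, real_inner_smul_right, real_inner_comm a' b]
  rw [real_inner_self_eq_norm_sq, div_eq_mul_one_div, ← h2, ← h1]
  ring

lemma inner_wv_add (τ : ℝ) (b a a' : E) :
    inner ℝ (wv τ b a) (wv τ b a') + tv τ b a * tv τ b a' = inner ℝ a a' + τ ^ 2 * mu b ^ 2 := by
  have h1 := mu_ge b
  have h0 : mu b ≠ 0 := by positivity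
  have h2 := rho_mu b
  have h3 := rho_sq b
  rw [inner_wv]
  have e : tv τ b a * tv τ b a' = τ ^ 2 * rho b ^ 2 -
      τ * (rho b / mu b) * (inner ℝ a b + inner ℝ a' b) +
      inner ℝ a b * inner ℝ a' b / mu b ^ 2 := by
    unfold tv; field_simp; ring
  rw [e, h2]
  linear_combination τ ^ 2 * h3

lemma wv_neg (τ : ℝ) (b a : E) : wv τ (-b) (-a) = -wv τ b a := by
  simp only [wv, eta, mu, rho, norm_neg, inner_neg_left, inner_neg_right, neg_neg, smul_neg]
  abel

lemma tv_neg (τ : ℝ) (b a : E) : tv τ (-b) (-a) = tv τ b a := by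
  simp only [tv, mu, rho, norm_neg, inner_neg_left, inner_neg_right, neg_neg]

lemma wv_far {τ : ℝ} {b a a' : E} (ha : ‖a‖ ≤ 1) (ha' : ‖a'‖ ≤ 1) (h1 : 1 ≤ ‖b‖)
    (h2 : 2 ≤ τ ^ 2 * ‖b‖ ^ 2) : 0 ≤ inner ℝ (wv τ b a) (wv τ b a') := by
  have e1 : rho b = 0 := Real.sqrt_eq_zero'.2 (by nlinarith)
  have e2 : mu b = ‖b‖ := max_eq_right h1
  have b1 : |inner ℝ a a'| ≤ 1 :=
    (abs_real_inner_le_norm _ _).trans (mul_le_one₀ ha (norm_nonneg _) ha')
  have b2 : |inner ℝ a b| ≤ ‖b‖ :=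
    (abs_real_inner_le_norm _ _).trans (mul_le_of_le_one_left (norm_nonneg _) ha)
  have b3 : |inner ℝ a' b| ≤ ‖b‖ :=
    (abs_real_inner_le_norm _ _).trans (mul_le_of_le_one_left (norm_nonneg _) ha')
  have b4 : inner ℝ a b * inner ℝ a' b / ‖b‖ ^ 2 ≤ 1 := by
    rw [div_le_one (by positivity), sq]
    refine (le_abs_self _).trans ?_
    rw [abs_mul]
    exact mul_le_mul b2 b3 (abs_nonneg _) (norm_nonneg _)
  rw [inner_wv, e1, e2]
  have := neg_le_of_abs_le b1
  linarith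

lemma cont_mu : Continuous (mu : E → ℝ) := by unfold mu; fun_prop

lemma cont_rho : Continuous (rho : E → ℝ) := by unfold rho; fun_prop

lemma cont_eta : Continuous (eta : E → ℝ) :=
  continuous_const.div ((cont_mu.pow 2).add cont_rho) fun b => by
    have h1 := mu_ge b
    have h2 := rho_ge b
    positivity

lemma cont_wv {X : Type} [TopologicalSpace X] (τ : ℝ) {b a : X → E} (hb : Continuous b)
    (ha : Continuous a) : Continuous fun x => wv τ (b x) (a x) :=
  (ha.sub (((cont_eta.comp hb).mul (ha.inner hb)).smul hb)).add (hb.const_smul τ)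

lemma cont_tv {X : Type} [TopologicalSpace X] (τ : ℝ) {b a : X → E} (hb : Continuous b)
    (ha : Continuous a) : Continuous fun x => tv τ (b x) (a x) :=
  (continuous_const.mul (cont_rho.comp hb)).sub ((ha.inner hb).div (cont_mu.comp hb) fun x => by
    have h1 := mu_ge (b x)
    positivity)

section
variable {I : Type} [Fintype I] [DecidableEq I] {τ : ℝ} {a : I → E} (ha : IsFrame τ a)
  (hτ : (Fintype.card I : ℝ) * τ ^ 2 = 1)
include ha

lemma sum_sq_aff (u : E) (x : ℝ) :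
    ∑ i, (inner ℝ (a i) u + x) ^ 2 = ‖u‖ ^ 2 + Fintype.card I * x ^ 2 := by
  have e : ∀ i, (inner ℝ (a i) u + x) ^ 2 =
      inner ℝ (a i) u ^ 2 + 2 * x * inner ℝ (a i) u + x ^ 2 := fun i => by ring
  simp only [e, sum_add_distrib, ← mul_sum, ha.zero, ha.tight, sum_const, card_univ, nsmul_eq_mul]
  ring

lemma norm_frame (i : I) : ‖a i‖ ≤ 1 := by
  have h := ha.gram i i
  rw [real_inner_self_eq_norm_sq, if_pos rfl] at h
  nlinarith [norm_nonneg (a i), sq_nonneg τ]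

lemma wv_add (b : E) (i j : I) : inner ℝ (wv τ b (a i)) (wv τ b (a j)) +
    tv τ b (a i) * tv τ b (a j) = (if i = j then 1 else 0) + τ ^ 2 * (mu b ^ 2 - 1) := by
  rw [inner_wv_add, ha.gram]
  ring

lemma wv_same (b : E) (i j : I) :
    -inner ℝ (wv τ b (a i)) (wv τ b (a j)) ≤ tv τ b (a i) * tv τ b (a j) := by
  have h := wv_add ha b i j
  have h1 := mu_ge b
  have h2 : 0 ≤ τ ^ 2 * (mu b ^ 2 - 1) := mul_nonneg (sq_nonneg _) (by nlinarith)
  have h3 : (0 : ℝ) ≤ if i = j then 1 else 0 := by split_ifs <;> norm_num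
  linarith

lemma tv_of_zero (b : E) (i : I) (h0 : wv τ b (a i) = 0) : 1 ≤ tv τ b (a i) ^ 2 := by
  have h := wv_add ha b i i
  have h1 := mu_ge b
  have h2 : 0 ≤ τ ^ 2 * (mu b ^ 2 - 1) := mul_nonneg (sq_nonneg _) (by nlinarith)
  rw [h0, inner_zero_left, if_pos rfl] at h
  nlinarith

lemma norm_wv (b : E) (i : I) : ‖wv τ b (a i)‖ ^ 2 ≤ 1 + τ ^ 2 * mu b ^ 2 := by
  have h := wv_add ha b i i
  rw [real_inner_self_eq_norm_sq, if_pos rfl] at h
  nlinarith [sq_nonneg τ, mul_self_nonneg (tv τ b (a i))]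

include hτ

lemma sum_tv (b : E) : ∑ i, tv τ b (a i) ^ 2 = 1 := by
  have h1 := mu_ge b
  have e : ∀ i, tv τ b (a i) = inner ℝ (a i) (-(1 / mu b) • b) + τ * rho b := fun i => by
    rw [tv, real_inner_smul_right]; ring
  simp only [e, sum_sq_aff ha, norm_smul, norm_neg, Real.norm_eq_abs, mul_pow, sq_abs]
  have h2 := rho_sq' b
  rw [← mul_assoc, hτ]
  have e2 : (1 / mu b) ^ 2 * ‖b‖ ^ 2 = ‖b‖ ^ 2 / mu b ^ 2 := by ring
  rw [e2]
  linarith

lemma sum_wv (b u : E) : ‖u‖ ^ 2 ≤ ∑ i, inner ℝ u (wv τ b (a i)) ^ 2 := by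
  have h1 := mu_ge b
  have e : ∀ i, inner ℝ u (wv τ b (a i)) =
      inner ℝ (a i) (u - (eta b * inner ℝ u b) • b) + τ * inner ℝ u b := fun i => by
    simp only [wv, inner_add_right, inner_sub_right, real_inner_smul_right,
      real_inner_comm u (a i)]
    ring
  simp only [e, sum_sq_aff ha, mul_pow]
  rw [← mul_assoc, hτ, norm_sub_sq_real, real_inner_smul_right, norm_smul, Real.norm_eq_abs,
    mul_pow, sq_abs]
  have h2 : 2 * eta b - eta b ^ 2 * ‖b‖ ^ 2 = 1 / mu b ^ 2 := by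
    rw [← eta_two, ← eta_one]; ring
  have h3 : 1 / mu b ^ 2 ≤ 1 := by
    rw [div_le_one (by positivity)]; nlinarith
  have h4 := sq_nonneg (inner ℝ u b)
  have e2 : ‖u‖ ^ 2 - 2 * (eta b * inner ℝ u b * inner ℝ u b) +
      (eta b * inner ℝ u b) ^ 2 * ‖b‖ ^ 2 + 1 * inner ℝ u b ^ 2 =
      ‖u‖ ^ 2 + inner ℝ u b ^ 2 * (1 - (2 * eta b - eta b ^ 2 * ‖b‖ ^ 2)) := by ring
  rw [e2, h2]
  nlinarith

end

end Pool.Agent.P.MP_3a943a_co.Pl
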