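import Mathlib
import Pool.Agent.P.MP_3a943a_co.Pl.Alg

/-!
# Odd families of orthogonal matrices and of regular simplices
-/

set_option autoImplicit false

namespace Pool.Agent.P.MP_3a943a_co.Pl

open Finset Matrix

section rh

variable {ι κ : Type} [Fintype ι] [Fintype κ] [DecidableEq κ]

/-- a family of multiples of orthogonal matrices commuting with a complex structure -/
structure RH (J : Matrix κ κ ℝ) (A : (ι → ℝ) → Matrix κ κ ℝ) : Prop where
  skew : Jᵀ = -J
  sq : J * J = -1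
  cont : Continuous A
  odd : ∀ c, A (-c) = -A c
  comm : ∀ c, A c * J = J * A c
  left : ∀ c, A c * (A c)ᵀ = (∑ i, c i ^ 2) • (1 : Matrix κ κ ℝ)
  right : ∀ c, (A c)ᵀ * A c = (∑ i, c i ^ 2) • (1 : Matrix κ κ ℝ)

/-- multiplication by a complex number -/
def rot (J : Matrix κ κ ℝ) (x y : ℝ) : Matrix κ κ ℝ := x • (1 : Matrix κ κ ℝ) + y • J

variable {J : Matrix κ κ ℝ}

omit [Fintype κ] in
lemma rot_tr (h : Jᵀ = -J) (x y : ℝ) : (rot J x y)ᵀ = rot J x (-y) := by
  simp [rot, h]

omit [Fintype κ] in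
lemma rot_neg (x y : ℝ) : rot J (-x) (-y) = -rot J x y := by
  simp [rot, add_comm]

lemma rot_comm {Z : Matrix κ κ ℝ} (h : Z * J = J * Z) (x y : ℝ) :
    Z * rot J x y = rot J x y * Z := by
  simp [rot, mul_add, add_mul, h]

lemma rot_mul (h : J * J = -1) (x y : ℝ) :
    rot J x y * rot J x (-y) = (x ^ 2 + y ^ 2) • (1 : Matrix κ κ ℝ) := by
  simp only [rot, mul_add, add_mul, smul_mul_assoc, mul_smul_comm, one_mul, mul_one, h]
  module

lemma rot_mul' (h : J * J = -1) (x y : ℝ) :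
    rot J x (-y) * rot J x y = (x ^ 2 + y ^ 2) • (1 : Matrix κ κ ℝ) := by
  have := rot_mul h x (-y)
  rwa [neg_neg, neg_sq] at this

lemma rh_base (h1 : Jᵀ = -J) (h2 : J * J = -1) :
    RH J fun c : Bool → ℝ => rot J (c true) (c false) where
  skew := h1
  sq := h2
  cont := by unfold rot; fun_prop
  odd c := rot_neg _ _
  comm c := (rot_comm rfl _ _).symm
  left c := by rw [rot_tr h1, rot_mul h2, Fintype.sum_bool]
  right c := by rw [rot_tr h1, rot_mul' h2, Fintype.sum_bool]

lemma RH.step {A : (ι → ℝ) → Matrix κ κ ℝ} (h : RH J A) :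
    RH (fromBlocks J 0 0 J) fun c : ι ⊕ Bool → ℝ =>
      fromBlocks (rot J (c (.inr true)) (c (.inr false))) (A fun i => c (.inl i))
        (-(A fun i => c (.inl i))ᵀ) (rot J (c (.inr true)) (-c (.inr false))) := by
  have hT : ∀ c, (A c)ᵀ * J = J * (A c)ᵀ := fun c => by
    have := congrArg transpose (h.comm c)
    rw [transpose_mul, transpose_mul, h.skew, neg_mul, mul_neg, neg_inj] at this
    exact this.symm
  have hc : Continuous fun c : ι ⊕ Bool → ℝ => A fun i => c (.inl i) :=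
    h.cont.comp (by fun_prop)
  refine ⟨?_, ?_, ?_, fun c => ?_, fun c => ?_, fun c => ?_, fun c => ?_⟩
  · simp [fromBlocks_transpose, fromBlocks_neg, h.skew]
  · rw [fromBlocks_multiply, ← fromBlocks_one, fromBlocks_neg]
    simp [h.sq]
  · refine Continuous.matrix_fromBlocks ?_ hc hc.matrix_transpose.neg ?_ <;>
      (unfold rot; fun_prop)
  · have e : (A fun i => (-c) (.inl i)) = -A fun i => c (.inl i) := h.odd _
    rw [e, fromBlocks_neg, Pi.neg_apply, Pi.neg_apply, rot_neg, rot_neg, transpose_neg]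
  · simp [fromBlocks_multiply, h.comm, hT, rot_comm]
  · rw [fromBlocks_transpose, fromBlocks_multiply, ← fromBlocks_one, fromBlocks_smul,
      rot_tr h.skew, rot_tr h.skew, neg_neg, transpose_neg, transpose_transpose, rot_mul h.sq,
      rot_mul' h.sq, neg_mul_neg, h.left, h.right, mul_neg, neg_mul, rot_comm (h.comm _),
      rot_comm (hT _), neg_add_cancel, neg_add_cancel, Fintype.sum_sum_type, Fintype.sum_bool,
      add_smul _ (_ + _), smul_zero, add_comm]
  · rw [fromBlocks_transpose, fromBlocks_multiply, ← fromBlocks_one, fromBlocks_smul,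
      rot_tr h.skew, rot_tr h.skew, neg_neg, transpose_neg, transpose_transpose, rot_mul h.sq,
      rot_mul' h.sq, neg_mul_neg, h.left, h.right, mul_neg, neg_mul, rot_comm (h.comm _),
      rot_comm (hT _), add_neg_cancel, add_neg_cancel, Fintype.sum_sum_type, Fintype.sum_bool,
      add_smul _ (_ + _), smul_zero, add_comm]

end rh

lemma exists_rh (a : ℕ) : ∃ (ι κ : Type) (_ : Fintype ι) (_ : Fintype κ) (_ : DecidableEq κ)
    (J : Matrix κ κ ℝ) (A : (ι → ℝ) → Matrix κ κ ℝ), Fintype.card ι = 2 * (a + 1) ∧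
    Fintype.card κ = 2 ^ (a + 1) ∧ RH J A := by
  induction a with
  | zero =>
    refine ⟨Bool, Fin 2, inferInstance, inferInstance, inferInstance, !![0, -1; 1, 0], _, rfl, rfl,
      rh_base ?_ ?_⟩
    · ext i j
      fin_cases i <;> fin_cases j <;> simp
    · ext i j
      fin_cases i <;> fin_cases j <;> simp [Matrix.mul_apply]
  | succ a ih =>
    obtain ⟨ι, κ, _, _, _, J, A, h1, h2, h⟩ := ih
    refine ⟨ι ⊕ Bool, κ ⊕ κ, inferInstance, inferInstance, inferInstance, _, _, ?_, ?_, h.step⟩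
    · rw [Fintype.card_sum, h1, Fintype.card_bool]
      ring
    · rw [Fintype.card_sum, h2]
      ring

lemma inner_dot {K : Type} [Fintype K] (u v : EuclideanSpace ℝ K) :
    inner ℝ u v = u.ofLp ⬝ᵥ v.ofLp := by
  simp [PiLp.inner_apply, mul_comm, dotProduct]

variable {n : ℕ}

lemma IsFrame.mat {I K : Type} [Fintype I] [DecidableEq I] [Fintype K] [DecidableEq K] {τ : ℝ}
    {a : I → EuclideanSpace ℝ K} (ha : IsFrame τ a) (e : K ≃ Fin (n + 1)) {M : Matrix K K ℝ}
    (h1 : M * Mᵀ = 1) (h2 : Mᵀ * M = 1) :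
    IsFrame τ fun i => (WithLp.toLp 2 fun r => (M *ᵥ (a i).ofLp) (e.symm r) : Ev n) := by
  refine ha.map (fun w => (WithLp.toLp 2 fun r => (M *ᵥ w.ofLp) (e.symm r) : Ev n))
    (fun v w => ?_) fun u => ⟨WithLp.toLp 2 (Mᵀ *ᵥ fun x => u (e x)), ?_⟩
  · have h3 : (M *ᵥ v.ofLp) ⬝ᵥ (M *ᵥ w.ofLp) = v.ofLp ⬝ᵥ w.ofLp := by
      rw [dotProduct_mulVec, vecMul_mulVec, h2, vecMul_one]
    rw [inner_dot, inner_dot, ← h3]
    exact e.symm.sum_comp fun x => (M *ᵥ v.ofLp) x * (M *ᵥ w.ofLp) x
  · ext r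
    simp [h1]

/-- the index set of the vertices -/
abbrev VI (j f : ℕ) : Type := (Fin j × Bool) ⊕ Fin f

/-- a product of disjoint transpositions -/
def sw {j f : ℕ} : VI j f → VI j f := Sum.map (fun x => (x.1, !x.2)) id

lemma exists_base (j f : ℕ) (κ : Type) [Fintype κ] [DecidableEq κ]
    (hc : j + f = Fintype.card κ + 1) {τ : ℝ} (hτ : (Fintype.card (VI j f) : ℝ) * τ ^ 2 = 1) :
    ∃ a : VI j f → EuclideanSpace ℝ (Fin j ⊕ κ), IsFrame τ a ∧
      (∀ i x, a (sw i) (.inl x) = -a i (.inl x)) ∧ ∀ i y, a (sw i) (.inr y) = a i (.inr y) := by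
  obtain ⟨θ, hθ0, hθ⟩ : ∃ θ : ℝ, 0 < θ ∧ θ * θ + θ * θ = 1 :=
    ⟨Real.sqrt (1 / 2), by positivity, by rw [Real.mul_self_sqrt (by norm_num)]; norm_num⟩
  let g : Fin j → VI j f → ℝ := fun x =>
    Sum.elim (fun z => if z.1 = x then (if z.2 then θ else -θ) else 0) 0
  have hg : ∀ (x : Fin j) (w : VI j f → ℝ),
      g x ⬝ᵥ w = θ * w (.inl (x, true)) - θ * w (.inl (x, false)) := fun x w => by
    simp [g, dotProduct, Fintype.sum_prod_type, sub_eq_add_neg]
  let v : Option (Fin j ⊕ κ) → EuclideanSpace ℝ (VI j f) := fun o =>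
    WithLp.toLp 2 (o.elim (fun _ => τ) (Sum.elim g 0))
  have hτ0 : τ ≠ 0 := by
    rintro rfl
    simp at hτ
  obtain ⟨β, hβ⟩ := Orthonormal.exists_orthonormalBasis_extension_of_card_eq (𝕜 := ℝ)
    (v := v) (s := {o | ∀ y, o ≠ some (.inr y)}) (by simp; omega) (by
      rw [orthonormal_iff_ite]
      rintro ⟨_ | x | y, h⟩ ⟨_ | x' | y', h'⟩
      · rw [if_pos rfl, inner_dot, ← hτ]
        simp [v, dotProduct, pow_two]
      · rw [inner_dot, dotProduct_comm]
        simp [v, hg]
      · exact absurd rfl (h' y')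
      · rw [inner_dot]
        simp [v, hg]
      · rw [inner_dot]
        by_cases e : x = x'
        · subst e
          simp [v, hg, g, hθ]
        · simp [v, hg, g, e]
      · exact absurd rfl (h' y')
      all_goals exact absurd rfl (h y))
  have b0 : β none = WithLp.toLp 2 fun _ => τ := hβ none (by simp)
  have b1 : ∀ x, β (some (.inl x)) = WithLp.toLp 2 (g x) := fun x => hβ _ (by simp)
  have ho : ∀ o o', inner ℝ (β o) (β o') = if o = o' then 1 else 0 :=
    orthonormal_iff_ite.1 β.orthonormal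
  have hV : ∀ (u : EuclideanSpace ℝ (Fin j ⊕ κ)) (i : VI j f),
      inner ℝ (WithLp.toLp 2 fun x => β (some x) i : EuclideanSpace ℝ (Fin j ⊕ κ)) u =
        (∑ x, u x • β (some x)) i := fun u i => by
    simp [inner_dot, dotProduct, mul_comm]
  refine ⟨fun i => WithLp.toLp 2 fun x => β (some x) i, ⟨fun i i' => ?_, fun u => ?_, fun u => ?_⟩,
    fun i x => ?_, fun i y => ?_⟩
  · have h := β.sum_inner_mul_inner (EuclideanSpace.single i 1) (EuclideanSpace.single i' 1)
    rw [Fintype.sum_option, b0] at h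
    simp only [EuclideanSpace.inner_single_left, EuclideanSpace.inner_single_right, map_one,
      one_mul, conj_trivial, PiLp.single_apply, eq_comm (a := i')] at h
    rw [inner_dot, eq_sub_iff_add_eq', ← h, pow_two]
    rfl
  · have h : inner ℝ (β none) (∑ x, u x • β (some x)) = 0 := by
      simp [-Fintype.sum_sum_type, inner_sum, real_inner_smul_right, ho]
    rw [b0, inner_dot, dotProduct, ← mul_sum] at h
    simp only [hV]
    exact (mul_eq_zero.1 h).resolve_left hτ0
  · simp only [hV]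
    rw [← EuclideanSpace.real_norm_sq_eq, ← real_inner_self_eq_norm_sq,
      EuclideanSpace.real_norm_sq_eq, sum_inner]
    refine sum_congr rfl fun x _ => ?_
    simp [-Fintype.sum_sum_type, inner_sum, real_inner_smul_left, real_inner_smul_right, ho,
      pow_two]
  · rcases i with ⟨z, s⟩ | z
    · by_cases e : z = x <;> cases s <;> simp [b1, g, sw, e]
    · simp [b1, g, sw]
  · have h : ∀ x, β (some (.inr y)) (.inl (x, true)) = β (some (.inr y)) (.inl (x, false)) := by
      intro x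
      have h := ho (some (.inl x)) (some (.inr y))
      rw [b1, inner_dot, hg, if_neg (by simp), sub_eq_zero] at h
      exact mul_left_cancel₀ hθ0.ne' h
    rcases i with ⟨z, _ | _⟩ | z
    · exact h z
    · exact (h z).symm
    · rfl

/-- an odd family of regular simplices -/
theorem exists_family (hn : 1 ≤ n) : ∃ (ι I : Type) (_ : Fintype ι) (_ : Fintype I)
    (_ : DecidableEq I) (τ : ℝ) (σ : I → I) (a : (ι → ℝ) → I → Ev n),
    Fintype.card ι = 2 * Nat.log 2 (n + 1) ∧ Fintype.card I = n + 2 ∧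
    (Fintype.card I : ℝ) * τ ^ 2 = 1 ∧ (∀ i, Continuous fun c => a c i) ∧
    (∀ c, ∑ x, c x ^ 2 = 1 → IsFrame τ (a c)) ∧ ∀ c i, a (-c) i = -a c (σ i) := by
  obtain ⟨p, hp⟩ : ∃ p, Nat.log 2 (n + 1) = p + 1 :=
    Nat.exists_eq_succ_of_ne_zero (Nat.log_pos one_lt_two (by omega)).ne'
  have h1 : 2 ^ (p + 1) ≤ n + 1 := hp ▸ Nat.pow_log_le_self 2 (by omega)
  have h2 : n + 1 < 2 ^ (p + 1) * 2 := by
    rw [← pow_succ, ← hp]
    exact Nat.lt_pow_succ_log_self one_lt_two _
  obtain ⟨ι, κ, _, _, _, J, A, c1, c2, h⟩ := exists_rh p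
  obtain ⟨j, hj⟩ := Nat.exists_eq_add_of_le h1
  obtain ⟨f, hf⟩ := Nat.exists_eq_add_of_le (show 2 * j ≤ n + 2 by omega)
  have c3 : Fintype.card (VI j f) = n + 2 := by simp; omega
  have hτ : (Fintype.card (VI j f) : ℝ) * Real.sqrt (1 / (n + 2)) ^ 2 = 1 := by
    rw [c3, Real.sq_sqrt (by positivity)]
    push_cast
    field_simp
  obtain ⟨a, ha, s1, s2⟩ := exists_base j f κ (by omega) hτ
  let e : Fin j ⊕ κ ≃ Fin (n + 1) := Fintype.equivOfCardEq (by simp; omega)
  refine ⟨ι, VI j f, inferInstance, inferInstance, inferInstance, _, sw, fun c i =>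
    WithLp.toLp 2 fun r => (fromBlocks 1 0 0 (A c) *ᵥ (a i).ofLp) (e.symm r), by rw [c1, hp], c3,
    hτ, fun i => ?_, fun c hc => ha.mat e ?_ ?_, fun c i => ?_⟩
  · have h3 : Continuous fun c => fromBlocks (1 : Matrix (Fin j) (Fin j) ℝ) 0 0 (A c) :=
      Continuous.matrix_fromBlocks continuous_const continuous_const continuous_const h.cont
    exact (PiLp.continuous_toLp 2 _).comp (continuous_pi fun r =>
      (continuous_apply (e.symm r)).comp (h3.matrix_mulVec (continuous_const (y := (a i).ofLp))))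
  · simp [fromBlocks_transpose, fromBlocks_multiply, h.left, hc]
  · simp [fromBlocks_transpose, fromBlocks_multiply, h.right, hc]
  · ext r
    change (fromBlocks 1 0 0 (A (-c)) *ᵥ (a i).ofLp) (e.symm r) =
      -(fromBlocks 1 0 0 (A c) *ᵥ (a (sw i)).ofLp) (e.symm r)
    rcases e.symm r with x | y
    · simp [fromBlocks_mulVec, s1]
    · simp [mulVec, dotProduct, s2, h.odd]

end Pool.Agent.P.MP_3a943a_co.Pl
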