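import Mathlib
import Pool.Agent.P.MP_3a943a_co.Pl.Alg

/-!
# The exponential of a symmetric matrix, written in an eigenbasis
-/

set_option autoImplicit false

namespace Pool.Agent.P.MP_3a943a_co.Pl

open Finset

variable {n : ℕ}

/-- square arrays -/
abbrev Mat (n : ℕ) : Type := Fin (n + 1) → Fin (n + 1) → ℝ

/-- the Rayleigh quotient -/
noncomputable def lam (S : Mat n) (v : Ev n) : ℝ := ∑ p, (∑ q, S p q * v q) * v p

/-- an orthonormal basis of eigenvectors -/
structure Eig (S : Mat n) (u : Fin (n + 1) → Ev n) : Prop where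
  orth : ∀ a b, inner ℝ (u a) (u b) = if a = b then 1 else 0
  repr : ∀ v, ∑ a, inner ℝ (u a) v • u a = v
  eig : ∀ a p, ∑ q, S p q * u a q = lam S (u a) * u a p

/-- the exponential of `S` applied to `w` -/
noncomputable def zv (S : Mat n) (u : Fin (n + 1) → Ev n) (w : Ev n) : Ev n :=
  ∑ a, (Real.exp (lam S (u a)) * inner ℝ (u a) w) • u a

/-- the trace of the square of the exponential, minus the dimension -/
noncomputable def dd (S : Mat n) (u : Fin (n + 1) → Ev n) : ℝ :=
  ∑ a, (Real.exp (lam S (u a)) ^ 2 - 1)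

lemma exists_eig {S : Mat n} (hS : ∀ p q, S p q = S q p) :
    ∃ u : Fin (n + 1) → Sph n, Eig S fun a => (u a).1 := by
  have hA : (Matrix.of S).IsHermitian := Matrix.IsHermitian.ext fun p q => hS q p
  let b := hA.eigenvectorBasis
  have h1 : ∀ a p, ∑ q, S p q * b a q = hA.eigenvalues a * b a p := fun a p =>
    congrFun (hA.mulVec_eigenvectorBasis a) p
  have h2 : ∀ a c, inner ℝ (b a) (b c) = if a = c then 1 else 0 :=
    orthonormal_iff_ite.1 b.orthonormal
  refine ⟨fun a => ⟨b a, by simp⟩, h2, b.sum_repr', fun a p => ?_⟩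
  have h3 := h2 a a
  rw [inner_eq_sum, if_pos rfl] at h3
  simp only [lam, h1, mul_assoc, ← mul_sum, h3, one_mul]

variable {S : Mat n} {u : Fin (n + 1) → Ev n} (h : Eig S u)
include h

lemma Eig.col (q r : Fin (n + 1)) : ∑ a, u a q * u a r = if r = q then 1 else 0 := by
  have h1 := congrArg (fun v : Ev n => v r) (h.repr (EuclideanSpace.single q 1))
  simpa [EuclideanSpace.inner_single_right, Pi.single_apply] using h1

lemma Eig.row (a : Fin (n + 1)) : ∑ p, u a p * u a p = 1 := by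
  have h3 := h.orth a a
  rwa [inner_eq_sum, if_pos rfl] at h3

lemma Eig.entry (p q : Fin (n + 1)) : S p q = ∑ a, lam S (u a) * (u a q * u a p) := by
  have h1 : S p q = ∑ r, S p r * ∑ a, u a q * u a r := by simp [h.col]
  rw [h1]
  simp only [mul_sum]
  rw [sum_comm]
  refine sum_congr rfl fun a _ => ?_
  rw [mul_left_comm, ← h.eig, mul_sum]
  exact sum_congr rfl fun r _ => by ring

lemma Eig.trace : ∑ a, lam S (u a) = ∑ p, S p p := by
  simp only [h.entry]
  rw [sum_comm]
  simp only [← mul_sum, h.row, mul_one]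

lemma Eig.big (p q : Fin (n + 1)) : ∃ a, |S p q| ≤ |lam S (u a)| := by
  obtain ⟨a, -, ha⟩ := exists_max_image univ (fun a => |lam S (u a)|) univ_nonempty
  refine ⟨a, ?_⟩
  have h1 := h.col p p
  have h2 := h.col q q
  rw [if_pos rfl] at h1 h2
  have h3 : |lam S (u a)| = ∑ c, |lam S (u a)| * ((u c q * u c q + u c p * u c p) / 2) := by
    rw [← mul_sum, ← sum_div, sum_add_distrib, h1, h2]
    ring
  rw [h.entry p q, h3]
  refine (abs_sum_le_sum_abs _ _).trans (sum_le_sum fun c _ => ?_)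
  rw [abs_mul]
  refine mul_le_mul (ha c (mem_univ _)) (abs_le.2 ⟨?_, ?_⟩) (abs_nonneg _) (abs_nonneg _)
  · nlinarith [sq_nonneg (u c q + u c p)]
  · nlinarith [sq_nonneg (u c q - u c p)]

omit h in
lemma exp_one_le (l : ℝ) : 0 ≤ Real.exp l ^ 2 - 1 - 2 * l := by
  have h1 := Real.add_one_le_exp (l + l)
  rw [Real.exp_add] at h1
  nlinarith

omit h in
lemma exp_two_le (l : ℝ) : 2 * |l| - 1 ≤ Real.exp l ^ 2 - 1 - 2 * l := by
  rcases le_total 0 l with hl | hl
  · have h1 := Real.add_one_le_exp l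
    rw [abs_of_nonneg hl]
    nlinarith [sq_nonneg (l - 1)]
  · rw [abs_of_nonpos hl]
    nlinarith [sq_nonneg (Real.exp l)]

lemma Eig.dd_eq (h0 : ∑ p, S p p = 0) :
    dd S u = ∑ a, (Real.exp (lam S (u a)) ^ 2 - 1 - 2 * lam S (u a)) := by
  rw [sum_sub_distrib, ← mul_sum, h.trace, h0, mul_zero, sub_zero, dd]

lemma Eig.dd_nonneg (h0 : ∑ p, S p p = 0) : 0 ≤ dd S u := by
  rw [h.dd_eq h0]
  exact sum_nonneg fun a _ => exp_one_le _

lemma Eig.dd_ge (h0 : ∑ p, S p p = 0) (p q : Fin (n + 1)) : 2 * |S p q| - 1 ≤ dd S u := by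
  obtain ⟨a, ha⟩ := h.big p q
  rw [h.dd_eq h0]
  have h1 := single_le_sum (f := fun a => Real.exp (lam S (u a)) ^ 2 - 1 - 2 * lam S (u a))
    (fun a _ => exp_one_le _) (mem_univ a)
  have h2 := exp_two_le (lam S (u a))
  linarith

lemma Eig.norm_zv (w : Ev n) :
    ‖zv S u w‖ ^ 2 = ∑ a, Real.exp (lam S (u a)) ^ 2 * inner ℝ (u a) w ^ 2 := by
  rw [← real_inner_self_eq_norm_sq, zv, sum_inner]
  refine sum_congr rfl fun a _ => ?_
  simp only [inner_sum, real_inner_smul_left, real_inner_smul_right, h.orth, mul_ite, mul_one,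
    mul_zero, sum_ite_eq, mem_univ, if_true]
  ring

lemma Eig.zv_zero {w : Ev n} (h0 : zv S u w = 0) : w = 0 := by
  have h1 := h.norm_zv w
  rw [h0, norm_zero, zero_pow two_ne_zero] at h1
  have h2 := (sum_eq_zero_iff_of_nonneg fun a _ => by positivity).1 h1.symm
  rw [← h.repr w]
  refine sum_eq_zero fun a ha => ?_
  have h3 := (mul_eq_zero.1 (h2 a ha)).resolve_left (by positivity)
  rw [pow_eq_zero_iff two_ne_zero] at h3
  rw [h3, zero_smul]

lemma Eig.inner_zv (hS : ∀ p q, S p q = S q p) {u' : Fin (n + 1) → Ev n} (h' : Eig (-S) u')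
    (w w' : Ev n) : inner ℝ (zv S u w) (zv (-S) u' w') = inner ℝ w w' := by
  have key : ∀ a b, Real.exp (lam S (u a)) * Real.exp (lam (-S) (u' b)) * inner ℝ (u a) (u' b) =
      inner ℝ (u a) (u' b) := by
    intro a b
    have e1 : lam S (u a) * inner ℝ (u a) (u' b) = ∑ p, ∑ q, S p q * u a q * u' b p := by
      rw [inner_eq_sum, mul_sum]
      exact sum_congr rfl fun p _ => by rw [← mul_assoc, ← h.eig, sum_mul]
    have e2 : lam (-S) (u' b) * inner ℝ (u a) (u' b) = -∑ q, ∑ p, S p q * u a q * u' b p := by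
      rw [inner_eq_sum, mul_sum, ← sum_neg_distrib]
      refine sum_congr rfl fun q _ => ?_
      rw [mul_left_comm, ← h'.eig, mul_sum, ← sum_neg_distrib]
      refine sum_congr rfl fun p _ => ?_
      rw [hS p q, Pi.neg_apply, Pi.neg_apply]
      ring
    rw [sum_comm, ← e1] at e2
    have e3 : (lam S (u a) + lam (-S) (u' b)) * inner ℝ (u a) (u' b) = 0 := by linarith
    rcases mul_eq_zero.1 e3 with e4 | e4
    · rw [← Real.exp_add, e4, Real.exp_zero, one_mul]
    · rw [e4, mul_zero]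
  conv_rhs => rw [← h.repr w, ← h'.repr w']
  simp only [zv, sum_inner, inner_sum, real_inner_smul_left, real_inner_smul_right]
  refine sum_congr rfl fun b _ => sum_congr rfl fun a _ => ?_
  linear_combination (inner ℝ (u' b) w' * inner ℝ (u a) w) * key a b

lemma Eig.select {I : Type} [Fintype I] [DecidableEq I] {τ : ℝ} {a : I → Ev n} (ha : IsFrame τ a)
    (hτ : (Fintype.card I : ℝ) * τ ^ 2 = 1) (b : Ev n) :
    ∃ i, dd S u ≤ Fintype.card I *
      (‖zv S u (wv τ b (a i))‖ ^ 2 - (n + 1) * tv τ b (a i) ^ 2) := by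
  have hne : Nonempty I := by
    by_contra hc
    rw [not_nonempty_iff] at hc
    simp at hτ
  have h1 : dd S u ≤ ∑ i, (‖zv S u (wv τ b (a i))‖ ^ 2 - (n + 1) * tv τ b (a i) ^ 2) := by
    rw [sum_sub_distrib, ← mul_sum, sum_tv ha hτ, dd, sum_sub_distrib]
    simp only [h.norm_zv]
    rw [sum_comm]
    refine sub_le_sub (sum_le_sum fun c _ => ?_) (by simp)
    have h2 := sum_wv ha hτ b (u c)
    rw [← real_inner_self_eq_norm_sq, h.orth, if_pos rfl] at h2
    rw [← mul_sum]
    exact le_mul_of_one_le_right (sq_nonneg _) h2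
  obtain ⟨i, -, hi⟩ := exists_le_of_sum_le (s := univ) (f := fun _ : I => dd S u)
    (g := fun i => Fintype.card I * (‖zv S u (wv τ b (a i))‖ ^ 2 - (n + 1) * tv τ b (a i) ^ 2))
    univ_nonempty (by
      rw [← mul_sum, sum_const, card_univ, nsmul_eq_mul]
      exact mul_le_mul_of_nonneg_left h1 (Nat.cast_nonneg _))
  exact ⟨i, hi⟩

end Pool.Agent.P.MP_3a943a_co.Pl
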