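import Mathlib
import Pool.Agent.P.MP_3a943a_co.Pl.Quad
import Pool.Agent.P.MP_3a943a_co.Pl.Fam

/-!
# The second plateau of the limit of `alphaStar`
-/

set_option autoImplicit false

namespace Pool.Agent.P.MP_3a943a_co.Pl

open Finset Filter Topology

variable {k n : ℕ}

section cont

variable {P : Type} [TopologicalSpace P] {S : P → Mat n} {u : P → Fin (n + 1) → Ev n}
  (hS : Continuous S)
include hS

lemma cont_lam {v : P → Ev n} (hv : Continuous v) : Continuous fun p => lam (S p) (v p) := by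
  unfold lam
  fun_prop

variable (hu : Continuous u)
include hu

lemma cont_zv {w : P → Ev n} (hw : Continuous w) : Continuous fun p => zv (S p) (u p) (w p) :=
  continuous_finsetSum _ fun a _ =>
    ((Real.continuous_exp.comp (cont_lam hS ((continuous_apply a).comp hu))).mul
      (((continuous_apply a).comp hu).inner hw)).smul ((continuous_apply a).comp hu)

lemma cont_dd : Continuous fun p => dd (S p) (u p) :=
  continuous_finsetSum _ fun a _ =>
    ((Real.continuous_exp.comp (cont_lam hS ((continuous_apply a).comp hu))).pow 2).sub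
      continuous_const

lemma closed_eig : IsClosed {p | Eig (S p) (u p)} := by
  have e : {p | Eig (S p) (u p)} =
      (⋂ a, ⋂ b, {p | inner ℝ (u p a) (u p b) = if a = b then 1 else 0}) ∩
      ((⋂ v, {p | ∑ a, inner ℝ (u p a) v • u p a = v}) ∩
      ⋂ a, ⋂ r, {p | ∑ q, S p r q * u p a q = lam (S p) (u p a) * u p a r}) := by
    ext p
    simp only [Set.mem_ofPred_eq, Set.mem_inter_iff, Set.mem_iInter]
    exact ⟨fun h => ⟨h.1, h.2, h.3⟩, fun h => ⟨h.1, h.2.1, h.2.2⟩⟩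
  rw [e]
  refine (isClosed_iInter fun a => isClosed_iInter fun b =>
    isClosed_eq (by fun_prop) continuous_const).inter ((isClosed_iInter fun v =>
    isClosed_eq (by fun_prop) continuous_const).inter (isClosed_iInter fun a =>
    isClosed_iInter fun r => isClosed_eq (by fun_prop)
      ((cont_lam hS ((continuous_apply a).comp hu)).mul (by fun_prop))))

end cont

variable {ι I : Type} [Fintype ι] [Fintype I] [DecidableEq I]

/-- the linear coordinates -/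
def bv (X : Idx n ⊕ ι → ℝ) : Ev n := WithLp.toLp 2 fun a => X (.inl (.inl a))

/-- the frame coordinates -/
def cv (X : Idx n ⊕ ι → ℝ) : EuclideanSpace ℝ ι := WithLp.toLp 2 fun a => X (.inr a)

/-- the quadratic coordinates -/
noncomputable def qv (X : Idx n ⊕ ι → ℝ) (z : Sym2 (Fin (n + 1))) : ℝ :=
  if h : z = s(0, 0) then 0 else X (.inl (.inr ⟨z, h⟩))

/-- the symmetric matrix of trace zero with the given quadratic coordinates -/
noncomputable def sm (X : Idx n ⊕ ι → ℝ) : Mat n := fun p q =>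
  qv X s(p, q) - (if p = 0 ∧ q = 0 then 1 else 0) * ∑ r, qv X s(r, r)

omit [Fintype ι] in
lemma sm_symm (X : Idx n ⊕ ι → ℝ) (p q : Fin (n + 1)) : sm X p q = sm X q p := by
  simp only [sm, Sym2.eq_swap (a := p), and_comm (a := p = 0)]

omit [Fintype ι] in
lemma sm_trace (X : Idx n ⊕ ι → ℝ) : ∑ p, sm X p p = 0 := by
  simp [sm]

omit [Fintype ι] in
lemma sm_neg (X : Idx n ⊕ ι → ℝ) : sm (-X) = -sm X := by
  have h : ∀ z, qv (-X) z = -qv X z := fun z => by
    unfold qv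
    split_ifs <;> simp
  ext p q
  simp only [sm, h, sum_neg_distrib, Pi.neg_apply]
  ring

omit [Fintype ι] in
lemma sm_entry (X : Idx n ⊕ ι → ℝ) (p q : Fin (n + 1)) (h : s(p, q) ≠ s(0, 0)) :
    sm X p q = X (.inl (.inr ⟨s(p, q), h⟩)) := by
  rw [sm, qv, dif_neg h, if_neg (fun e => h (by rw [e.1, e.2])), zero_mul, sub_zero]

omit [Fintype ι] in
lemma cont_sm : Continuous (sm : (Idx n ⊕ ι → ℝ) → Mat n) := by
  have h : ∀ z, Continuous fun X : Idx n ⊕ ι → ℝ => qv X z := fun z => by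
    unfold qv
    split_ifs <;> fun_prop
  unfold sm
  fun_prop

/-- the relation between a point and its possible images -/
def Rel (τ : ℝ) (a : (ι → ℝ) → I → Ev n) (X : Idx n ⊕ ι → ℝ) (u : Fin (n + 1) → Ev n)
    (c : EuclideanSpace ℝ ι) (y : Ev n) (i : I) : Prop :=
  Eig (sm X) u ∧ ‖cv X‖ • c = cv X ∧
    dd (sm X) u ≤ Fintype.card I * (‖zv (sm X) u (wv τ (bv X) (a c.ofLp i))‖ ^ 2 -
      (n + 1) * tv τ (bv X) (a c.ofLp i) ^ 2) ∧
    ‖zv (sm X) u (wv τ (bv X) (a c.ofLp i))‖ • y = zv (sm X) u (wv τ (bv X) (a c.ofLp i))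

lemma prod_le {N s t A B : ℝ} (hN : 0 ≤ N) (hA : 0 ≤ A) (hB : 0 ≤ B) (h1 : N * s ^ 2 ≤ A ^ 2)
    (h2 : N * t ^ 2 ≤ B ^ 2) : N * (s * t) ≤ A * B := by
  refine (abs_le_of_sq_le_sq' ?_ (mul_nonneg hA hB)).2
  have := mul_le_mul h1 h2 (by positivity) (by positivity)
  nlinarith

lemma exists_unit {E : Type} [NormedAddCommGroup E] [NormedSpace ℝ E] [Nontrivial E] (v : E) :
    ∃ y : Metric.sphere (0 : E) 1, ‖v‖ • y.1 = v := by
  by_cases h : v = 0
  · obtain ⟨y, hy⟩ := (NormedSpace.sphere_nonempty (x := (0 : E))).mpr (zero_le_one' ℝ)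
    exact ⟨⟨y, hy⟩, by simp [h]⟩
  · have h1 : ‖v‖ ≠ 0 := norm_ne_zero_iff.2 h
    exact ⟨⟨‖v‖⁻¹ • v, by simp [norm_smul, h1]⟩, smul_inv_smul₀ h1 v⟩

section core

variable {τ : ℝ} {a : (ι → ℝ) → I → Ev n} {X : Idx n ⊕ ι → ℝ} {u u' : Fin (n + 1) → Ev n}
  {c c' : EuclideanSpace ℝ ι} {y y' : Ev n} {i i' : I}

omit [DecidableEq I] in
lemma Rel.sq_le (h : Rel τ a X u c y i) (hI : Fintype.card I = n + 2) {D : ℝ}
    (hD : (n + 2) * D ≤ dd (sm X) u) : D + (n + 1) * tv τ (bv X) (a c.ofLp i) ^ 2 ≤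
      ‖zv (sm X) u (wv τ (bv X) (a c.ofLp i))‖ ^ 2 := by
  have h1 := hD.trans h.2.2.1
  rw [hI] at h1
  push_cast at h1
  have h2 := le_of_mul_le_mul_left h1 (by positivity)
  linarith

omit [DecidableEq I] in
lemma Rel.tv_le (h : Rel τ a X u c y i) (hI : Fintype.card I = n + 2) :
    (n + 1) * tv τ (bv X) (a c.ofLp i) ^ 2 ≤ ‖zv (sm X) u (wv τ (bv X) (a c.ofLp i))‖ ^ 2 := by
  have := h.sq_le hI (D := 0) (by rw [mul_zero]; exact h.1.dd_nonneg (sm_trace X))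
  rwa [zero_add] at this

lemma Rel.pos (h : Rel τ a X u c y i) (hI : Fintype.card I = n + 2) (ha : IsFrame τ (a c.ofLp)) :
    0 < ‖zv (sm X) u (wv τ (bv X) (a c.ofLp i))‖ := by
  refine norm_pos_iff.2 fun h0 => ?_
  have h1 := h.tv_le hI
  have h2 := tv_of_zero ha (bv X) i (h.1.zv_zero h0)
  rw [h0, norm_zero] at h1
  have h3 : (0 : ℝ) ≤ n := Nat.cast_nonneg n
  nlinarith

lemma Rel.wv_le (h : Rel τ a X u c y i) (hI : Fintype.card I = n + 2) (ha : IsFrame τ (a c.ofLp))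
    (hτ : τ ^ 2 ≤ 1) (hb : τ ^ 2 * ‖bv X‖ ^ 2 < 2) (p q : Fin (n + 1))
    (hS : 2 * ((n : ℝ) + 2) ^ 2 ≤ |sm X p q|) :
    (n + 1) * ‖wv τ (bv X) (a c.ofLp i)‖ ^ 2 ≤ ‖zv (sm X) u (wv τ (bv X) (a c.ofLp i))‖ ^ 2 := by
  have h3 : (0 : ℝ) ≤ n := Nat.cast_nonneg n
  have h1 := h.1.dd_ge (sm_trace X) p q
  have h2 := h.sq_le hI (D := 3 * (n + 1)) (by nlinarith)
  have h4 := norm_wv ha (bv X) i
  have h5 : τ ^ 2 * mu (bv X) ^ 2 ≤ 2 := by
    rcases par_cases (bv X) with ⟨e, -⟩ | ⟨e, -⟩ <;> rw [e] <;> linarith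
  have h6 : 0 ≤ (n + 1) * tv τ (bv X) (a c.ofLp i) ^ 2 := by positivity
  nlinarith

lemma core {σ : I → I} (hI : Fintype.card I = n + 2) (hτ : (Fintype.card I : ℝ) * τ ^ 2 = 1)
    (hodd : ∀ c i, a (-c) i = -a c (σ i)) (ha : IsFrame τ (a c.ofLp)) (ha' : IsFrame τ (a c'.ofLp))
    (h : Rel τ a X u c y i) (h' : Rel τ a (-X) u' c' y' i') (d : Idx n ⊕ ι)
    (hd : 2 * ((n : ℝ) + 2) ^ 2 ≤ |X d|) : inner ℝ y y' ≤ 1 / ((n : ℝ) + 1) := by
  have h3 : (0 : ℝ) ≤ n := Nat.cast_nonneg n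
  have p1 := h.pos hI ha
  have p2 := h'.pos hI ha'
  have e1 : bv (-X) = -bv X := rfl
  have e2 : inner ℝ (zv (sm X) u (wv τ (bv X) (a c.ofLp i)))
      (zv (sm (-X)) u' (wv τ (bv (-X)) (a c'.ofLp i'))) =
      inner ℝ (wv τ (bv X) (a c.ofLp i)) (wv τ (bv (-X)) (a c'.ofLp i')) := by
    have h4 := h'.1
    rw [sm_neg] at h4 ⊢
    exact h.1.inner_zv (sm_symm X) h4 _ _
  suffices hs : (n + 1) * inner ℝ (wv τ (bv X) (a c.ofLp i)) (wv τ (bv (-X)) (a c'.ofLp i')) ≤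
      ‖zv (sm X) u (wv τ (bv X) (a c.ofLp i))‖ *
        ‖zv (sm (-X)) u' (wv τ (bv (-X)) (a c'.ofLp i'))‖ by
    have e3 := congrArg₂ (inner ℝ) h.2.2.2 h'.2.2.2
    rw [real_inner_smul_left, real_inner_smul_right, e2] at e3
    rw [← e3] at hs
    rw [le_div_iff₀ (by positivity)]
    refine le_of_mul_le_mul_left ?_ (mul_pos p1 p2)
    linarith
  rw [hI] at hτ
  push_cast at hτ
  have t1 : τ ^ 2 ≤ 1 := by nlinarith [sq_nonneg τ]
  rcases le_or_gt 2 (τ ^ 2 * ‖bv X‖ ^ 2) with hb | hb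
  · have b1 : 1 ≤ ‖bv X‖ := by
      by_contra hc
      have : ‖bv X‖ ^ 2 ≤ 1 := pow_le_one₀ (norm_nonneg _) (not_le.1 hc).le
      nlinarith [sq_nonneg τ]
    have b2 := wv_far (norm_frame ha i) ((norm_neg _).trans_le (norm_frame ha' i')) b1 hb
    have b3 := wv_neg τ (bv X) (-a c'.ofLp i')
    rw [neg_neg] at b3
    refine le_trans ?_ (mul_pos p1 p2).le
    rw [e1, b3, inner_neg_right]
    nlinarith
  rcases d with (r | ⟨z, hz⟩) | r
  · exfalso
    have b1 : |X (.inl (.inl r))| ≤ ‖bv X‖ := PiLp.norm_apply_le (bv X) r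
    have b2 : (2 * ((n : ℝ) + 2) ^ 2) ^ 2 ≤ ‖bv X‖ ^ 2 :=
      pow_le_pow_left₀ (by positivity) (hd.trans b1) 2
    have b3 : 2 * ((n : ℝ) + 2) ≤ (2 * ((n : ℝ) + 2) ^ 2) ^ 2 := by
      have b4 : (n : ℝ) + 2 ≤ ((n : ℝ) + 2) ^ 2 := by nlinarith
      nlinarith
    nlinarith [sq_nonneg τ]
  · induction z using Sym2.ind with
    | h p q =>
      rw [← sm_entry X p q hz] at hd
      have b1 := h.wv_le hI ha t1 hb p q hd
      have b2 := h'.wv_le hI ha' t1 (by rwa [e1, norm_neg]) p q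
        (by rwa [sm_neg, Pi.neg_apply, Pi.neg_apply, abs_neg])
      exact le_trans (mul_le_mul_of_nonneg_left (real_inner_le_norm _ _) (by positivity))
        (prod_le (by positivity) p1.le p2.le b1 b2)
  · have b1 : ‖cv X‖ ≠ 0 := by
      have b2 : |X (.inr r)| ≤ ‖cv X‖ := PiLp.norm_apply_le (cv X) r
      have b3 : 0 < 2 * ((n : ℝ) + 2) ^ 2 := by positivity
      linarith
    have b2 : c' = -c := by
      have b3 : cv (-X) = -cv X := rfl
      have b4 := h'.2.1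
      rw [b3, norm_neg] at b4
      refine smul_right_injective _ b1 ?_
      change ‖cv X‖ • c' = ‖cv X‖ • -c
      rw [b4, smul_neg, h.2.1]
    have b3 : a c'.ofLp i' = -a c.ofLp (σ i') := by
      rw [b2]
      exact hodd _ _
    have b4 := prod_le (by positivity) p1.le p2.le (h.tv_le hI) (h'.tv_le hI)
    refine le_trans (mul_le_mul_of_nonneg_left ?_ (by positivity)) b4
    rw [b3, e1, wv_neg, tv_neg, inner_neg_right]
    exact wv_same ha _ _ _

end core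

theorem lower_three (hn : 1 ≤ n) (hk : 2 * k ≤ n * (n + 5) + 4 * Nat.log 2 (n + 1)) {t : ℝ}
    (ht : 1 / ((n : ℝ) + 1) < t) : ∃ r, 0 < r ∧ r < Real.pi ∧ Hom k n r (Real.arccos t) := by
  classical
  obtain ⟨ι, I, _, _, _, τ, σ, a, c1, hI, hτ, hc, hf, hodd⟩ := exists_family hn
  obtain ⟨e⟩ : Nonempty (Fin (k + 1) ↪ Idx n ⊕ ι) := by
    rw [Function.Embedding.nonempty_iff_card_le, Fintype.card_sum, c1, Fintype.card_fin]
    have := card_Idx n
    omega
  have : Nonempty ι := Fintype.card_pos_iff.1 (by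
    have := Nat.log_pos one_lt_two (show 2 ≤ n + 1 by omega)
    omega)
  let X : Sph k → Idx n ⊕ ι → ℝ := fun x d =>
    2 * ((n : ℝ) + 2) ^ 2 * (((k : ℝ) + 1) * ∑ c, (if e c = d then 1 else 0) * x.1 c)
  have hX : Continuous X := by fun_prop
  have hfr : ∀ c : Metric.sphere (0 : EuclideanSpace ℝ ι) 1, IsFrame τ (a c.1.ofLp) := fun c =>
    hf _ (by rw [← EuclideanSpace.real_norm_sq_eq]; simp)
  refine hom_of_rel (Y := (Fin (n + 1) → Sph n) × Metric.sphere (0 : EuclideanSpace ℝ ι) 1 × Sph n)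
    (fun y => y.2.2) (by fun_prop)
    (⋃ i, {p | Rel τ a (X p.1) (fun r => (p.2.1 r).1) p.2.2.1.1 p.2.2.2.1 i})
    (isClosed_iUnion_of_finite fun i => ?_) (fun x => ?_) _ (fun x x' y y' hx h h' => ?_) ht
  · have k1 : Continuous fun p : Sph k × (Fin (n + 1) → Sph n) ×
        Metric.sphere (0 : EuclideanSpace ℝ ι) 1 × Sph n => X p.1 := hX.comp continuous_fst
    have k2 : Continuous fun p : Sph k × (Fin (n + 1) → Sph n) ×
        Metric.sphere (0 : EuclideanSpace ℝ ι) 1 × Sph n => fun r => (p.2.1 r).1 := by fun_prop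
    have k3 := cont_sm.comp k1
    have k4 : Continuous fun p : Sph k × (Fin (n + 1) → Sph n) ×
        Metric.sphere (0 : EuclideanSpace ℝ ι) 1 × Sph n => bv (X p.1) := by
      unfold bv
      fun_prop
    have k5 : Continuous fun p : Sph k × (Fin (n + 1) → Sph n) ×
        Metric.sphere (0 : EuclideanSpace ℝ ι) 1 × Sph n => cv (X p.1) := by
      unfold cv
      fun_prop
    have k6 : Continuous fun p : Sph k × (Fin (n + 1) → Sph n) ×
        Metric.sphere (0 : EuclideanSpace ℝ ι) 1 × Sph n => a p.2.2.1.1.ofLp i :=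
      (hc i).comp (by fun_prop)
    have k7 := cont_zv k3 k2 (cont_wv τ k4 k6)
    exact (closed_eig k3 k2).inter ((isClosed_eq (k5.norm.smul (by fun_prop)) k5).inter
      ((isClosed_le (cont_dd k3 k2) (continuous_const.mul ((k7.norm.pow 2).sub
        (continuous_const.mul ((cont_tv τ k4 k6).pow 2))))).inter
        (isClosed_eq (k7.norm.smul (by fun_prop)) k7)))
  · obtain ⟨u, hu⟩ := exists_eig (sm_symm (X x))
    obtain ⟨c, hc⟩ := exists_unit (cv (X x))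
    obtain ⟨i, hi⟩ := hu.select (hfr c) hτ (bv (X x))
    obtain ⟨y, hy⟩ := exists_unit (zv (sm (X x)) (fun r => (u r).1)
      (wv τ (bv (X x)) (a c.1.ofLp i)))
    exact ⟨(u, c, y), Set.mem_iUnion.2 ⟨i, hu, hc, hi, hy⟩⟩
  · obtain ⟨i, h⟩ := Set.mem_iUnion.1 h
    obtain ⟨i', h'⟩ := Set.mem_iUnion.1 h'
    have e1 : X x' = -X x := by
      ext d
      simp only [X, hx, PiLp.neg_apply, mul_neg, sum_neg_distrib, Pi.neg_apply]
    obtain ⟨c, -, hc⟩ := exists_le_of_sum_le (s := univ) (f := fun _ : Fin (k + 1) => (1 : ℝ))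
      (g := fun c => ((k : ℝ) + 1) * (x.1 c * x.1 c)) univ_nonempty (by
        rw [← mul_sum, sph_sum_sq]
        simp)
    have e2 : X x (e c) = 2 * ((n : ℝ) + 2) ^ 2 * (((k : ℝ) + 1) * x.1 c) := by
      simp [X]
    have h2 : Rel τ a (X x') (fun r => (y'.1 r).1) y'.2.1.1 y'.2.2.1 i' := h'
    rw [e1] at h2
    refine core hI hτ hodd (hfr _) (hfr _) h h2 (e c) ?_
    rw [e2, abs_mul, abs_of_pos (by positivity)]
    refine le_mul_of_one_le_right (by positivity) ((one_le_sq_iff_one_le_abs _).1 ?_)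
    have h3 : (0 : ℝ) ≤ k := Nat.cast_nonneg k
    nlinarith [mul_self_nonneg (x.1 c)]

theorem plateau (hn : 1 ≤ n) (h1 : n * (n + 5) < 2 * k)
    (h2 : 2 * k ≤ n * (n + 5) + 4 * Nat.log 2 (n + 1)) :
    Tendsto (alphaStar k n) (𝓝[<] Real.pi) (𝓝 (Real.arccos (1 / ((n : ℝ) + 1)))) := by
  refine tendsto_order.mpr ⟨fun b hb => ?_, fun b hb => ?_⟩
  · have h0 : 1 / ((n : ℝ) + 1) < 1 := by
      have : (1 : ℝ) ≤ n := by exact_mod_cast hn
      rw [div_lt_one (by positivity)]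
      linarith
    have h3 : Tendsto Real.arccos (𝓝[>] (1 / ((n : ℝ) + 1)))
        (𝓝 (Real.arccos (1 / ((n : ℝ) + 1)))) :=
      (Real.continuous_arccos.tendsto _).mono_left nhdsWithin_le_nhds
    have h6 : ∀ᶠ t : ℝ in 𝓝[>] (1 / ((n : ℝ) + 1)), t ∈ Set.Ioo (1 / ((n : ℝ) + 1)) 1 :=
      Ioo_mem_nhdsGT h0
    obtain ⟨t, h4, h5⟩ := (h6.and (h3.eventually (lt_mem_nhds hb))).exists
    obtain ⟨r₀, -, hr₀, hH⟩ := lower_three hn h2 h4.1
    filter_upwards [Ico_mem_nhdsLT hr₀] with r hr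
    exact h5.trans_le (le_alphaStar hH (Real.arccos_pos.mpr h4.2) (Real.arccos_le_pi _) hr.1)
  · filter_upwards [self_mem_nhdsWithin] with r hr
    exact (alphaStar_le_arccos h1 hr).trans_lt hb

end Pool.Agent.P.MP_3a943a_co.Pl
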